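import Pool.Agent.H118_IntCx.Asym

namespace Pool.Agent.Results.MP_95e00a_nt.DefectGrowth

open Pool.Agent.H118_IntCx

/-- For all `n ≥ 4` and `m ≥ 0`, every expression for `2 ^ n * 3 ^ m` uses at least
`3 m + 3 n log_3 2 + (1/150) log n / log log n` ones. -/
theorem result (n m k : ℕ) (hn : 4 ≤ n) (h : Reach (2 ^ n * 3 ^ m) k) :
    3 * (m : ℝ) + 3 * n * (Real.log 2 / Real.log 3)
      + (1 / 150) * (Real.log n / Real.log (Real.log n)) ≤ (k : ℝ) :=
  main_growth n m k hn h

end Pool.Agent.Results.MP_95e00a_nt.DefectGrowth
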