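import Pool.Agent.H118_IntCx.Final1

namespace Pool.Agent.Results.MP_95e00a_nt.DepthFour

open Pool.Agent.H118_IntCx

/-- For every `n ≥ 1` the least number of ones in a restricted expression of value `2 ^ n`
is exactly `2 * n`.  Restricted expressions are the products of sums of the form
`x₁ + ⋯ + x_r` or `x₁ + ⋯ + x_r + y`, where every `x_i` is a product of sums of ones and `y` is the
value of an arbitrary expression with `y ≤ max x_i`. -/
theorem result (n : ℕ) (hn : 1 ≤ n) : IsLeast {k : ℕ | Shallow (2 ^ n) k} (2 * n) :=
  ⟨shallow_upper n hn, fun _ hk => shallow_lower hk n rfl⟩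

end Pool.Agent.Results.MP_95e00a_nt.DepthFour
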