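import Pool.Agent.H118_IntCx.MixFinal

namespace Pool.Agent.Results.MP_95e00a_nt.FewTerms

open Pool.Agent.H118_IntCx

/-- Expressions for `2 ^ n` with at most `N` terms after multiplying out.
(1) For large `n` a sum of this kind uses at least `2.001 n` ones.
(2) Every expression of this kind uses at least `2 n - K` ones. -/
theorem result (P N D : ℕ) (hD : 2000 * N ^ 2 ≤ D) :
    (∃ n0 : ℕ, ∀ n, n0 ≤ n →
      (∀ m k a μ m' k' a' μ', Mix P D m k a μ → Mix P D m' k' a' μ' → a + a' ≤ N → μ ≤ 17 →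
        μ' ≤ 17 → m + m' = 2 ^ n → 2001 * n ≤ 1000 * (k + k')) ∧
      (∀ m k a μ y l, Mix P D m k a μ → Reach y l → y ≤ m → a + 1 ≤ N → μ ≤ 17 →
        m + y = 2 ^ n → 2001 * n ≤ 1000 * (k + l))) ∧
    (∃ K : ℕ, ∀ n k a μ, Mix P D (2 ^ n) k a μ → a ≤ N → μ ≤ 17 → 2 * n ≤ k + K) := by
  obtain ⟨n0, h0⟩ := mix_root P N D hD
  refine ⟨⟨n0, h0⟩, N * (2 * n0), ?_⟩
  intro n k a μ h ha hμ
  have h1 := mix_all P D N n0 h0 h n rfl ha hμ
  have h2 : (a - 1) * (2 * n0) ≤ N * (2 * n0) := Nat.mul_le_mul_right _ (by omega)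
  omega

end Pool.Agent.Results.MP_95e00a_nt.FewTerms
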