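import Pool.Agent.H118_IntCx.CofMain

namespace Pool.Agent.Results.MP_95e00a_nt.ShortFactor

open Pool.Agent.H118_IntCx

/-- Let `x + y = 2 ^ n`, where `x` and `y` are values of expressions with `k` and `l` ones, and let
some divisor of `x` be a sum of `N` numbers `u j` whose prime factors are at most `P`.  If `w` is
the odd part of one of the `u j`, then `k + l` is at least `3 log (2 ^ n * w) / log 3 - ε n`, for
large `n`.  In particular `k + l` is at least `2.001 n` if `w ^ 17` is at least `2 ^ n`. -/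
theorem result (P N : ℕ) (ε : ℝ) (hε : 0 < ε) :
    ∃ n0 : ℕ, ∀ n, n0 ≤ n → ∀ (x y k l : ℕ), x + y = 2 ^ n → Reach x k → Reach y l →
      ∀ (u : Fin N → ℕ) (i : Fin N) (a w : ℕ),
      (∀ j, 0 < u j ∧ ∀ p, p.Prime → p ∣ u j → p ≤ P) → (∑ j, u j) ∣ x →
      u i = 2 ^ a * w → ¬ 2 ∣ w →
      3 * (n * Real.log 2 + Real.log w) ≤ (k + l + ε * n) * Real.log 3 ∧
      (2 ^ n ≤ w ^ 17 → 2001 * n ≤ 1000 * (k + l)) :=
  cof_final P N ε hε

end Pool.Agent.Results.MP_95e00a_nt.ShortFactor
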